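import Mathlib

set_option autoImplicit false

/-!
# Unexpected quintics for points in linear general position

In every projective space of dimension `n ≥ 3` there is a finite set of points in linear general
position, on the curve parametrised by `(1, t, t ^ 3, t ^ 9, t ^ 81, ...)`, which admits an
unexpected hypersurface of degree `5` with a general point of multiplicity `4`.
-/

open MvPolynomial

namespace Pool.Agent.Results.MP_b2f0ea_ag.QuinticEveryDimension

section Definitions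

variable (k : Type*) [Field k] (n : ℕ)

/-- The projective space of dimension `n` over `k`. -/
abbrev PSpace := Projectivization k (Fin (n + 1) → k)

variable {k n}

/-- The homogeneous vanishing ideal of a set of points: the ideal generated by the forms that
vanish at all points of the set. -/
noncomputable def vanishingIdeal (Z : Set (PSpace k n)) : Ideal (MvPolynomial (Fin (n + 1)) k) :=
  Ideal.span {F | (∃ e, F.IsHomogeneous e) ∧ ∀ P ∈ Z, eval P.rep F = 0}

/-- The space of the forms of degree `d` in an ideal. -/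
noncomputable def degreePart (I : Ideal (MvPolynomial (Fin (n + 1)) k)) (d : ℕ) :
    Submodule k (MvPolynomial (Fin (n + 1)) k) :=
  homogeneousSubmodule (Fin (n + 1)) k d ⊓ I.restrictScalars k

/-- The set is not contained in a hyperplane: vectors representing its points span the space. -/
def NonDegenerate (Z : Set (PSpace k n)) : Prop :=
  Submodule.span k (Projectivization.rep '' Z) = ⊤

/-- Any `n + 1` distinct points of the set are linearly independent, i.e. do not lie on a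
hyperplane. -/
def LinearGeneralPosition (Z : Set (PSpace k n)) : Prop :=
  ∀ f : Fin (n + 1) → PSpace k n, Function.Injective f → (∀ i, f i ∈ Z) →
    LinearIndependent k (fun i => (f i).rep)

/-- `Z` admits an unexpected hypersurface of degree `d` with multiplicity `m` at a general point:
for all points `P` outside the hypersurface defined by some nonzero form `D`, the space of the forms
of degree `d` in `I_Z ∩ I_P ^ m` has dimension greater than
`max 0 (dim [I_Z]_d - (m + n - 1).choose n)`. -/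
def Unexpected (Z : Set (PSpace k n)) (d m : ℕ) : Prop :=
  ∃ (e : ℕ) (D : MvPolynomial (Fin (n + 1)) k), D.IsHomogeneous e ∧ D ≠ 0 ∧
    ∀ P : PSpace k n, eval P.rep D ≠ 0 →
      max 0 ((Module.finrank k (degreePart (vanishingIdeal Z) d) : ℤ) -
          ((m + n - 1).choose n : ℕ)) <
        (Module.finrank k (degreePart (vanishingIdeal Z ⊓ vanishingIdeal {P} ^ m) d) : ℤ)

end Definitions

/-! ### Polynomials with few terms -/

lemma signVariations_lt_card (m : ℕ) : ∀ P : Polynomial ℝ, P ≠ 0 → P.support.card ≤ m + 1 →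
    P.signVariations ≤ m := by
  induction m with
  | zero =>
    intro P hP hc
    have h1 : P.support.card = 1 := by
      have : 0 < P.support.card := Finset.card_pos.2 (by simpa using hP)
      omega
    obtain ⟨d, c, hc, rfl⟩ := Polynomial.card_support_eq_one.1 h1
    rw [Polynomial.C_mul_X_pow_eq_monomial, Polynomial.signVariations_monomial]
  | succ m ih =>
    intro P hP hc
    by_cases h0 : P.eraseLead = 0
    · have := Polynomial.signVariations_le_eraseLead_succ (P := P)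
      rw [h0, Polynomial.signVariations_zero] at this
      omega
    · have h1 : P.eraseLead.support.card ≤ m + 1 := by
        have := Polynomial.card_support_eraseLead_add_one hP
        omega
      have h2 := ih _ h0 h1
      have := Polynomial.signVariations_le_eraseLead_succ (P := P)
      omega

/-- A nonzero real combination of `m + 1` powers has at most `m` positive roots. -/
lemma real_powers {m : ℕ} (c : Fin (m + 1) → ℕ) (hc : Function.Injective c)
    (s : Fin (m + 1) → ℕ) (hs : Function.Injective s) (hs0 : ∀ i, 0 < s i)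
    (a : Fin (m + 1) → ℝ) (h : ∀ i, ∑ j, (s i : ℝ) ^ c j * a j = 0) : a = 0 := by
  classical
  let P : Polynomial ℝ := ∑ j, Polynomial.monomial (c j) (a j)
  have hcoef : ∀ j, P.coeff (c j) = a j := by
    intro j
    simp only [P, Polynomial.finsetSum_coeff, Polynomial.coeff_monomial]
    rw [Finset.sum_eq_single j]
    · simp
    · intro b _ hb
      rw [if_neg (fun h => hb (hc h))]
    · simp
  by_contra hne
  have hP : P ≠ 0 := by
    intro h0
    apply hne
    ext j
    rw [← hcoef j, h0]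
    simp
  have hsupp : P.support ⊆ Finset.univ.image c := by
    intro i hi
    by_contra hni
    apply Polynomial.mem_support_iff.1 hi
    simp only [P, Polynomial.finsetSum_coeff, Polynomial.coeff_monomial]
    refine Finset.sum_eq_zero (fun j _ => if_neg (fun h => hni ?_))
    exact Finset.mem_image.2 ⟨j, Finset.mem_univ _, h⟩
  have hcard : P.support.card ≤ m + 1 :=
    (Finset.card_le_card hsupp).trans (Finset.card_image_le.trans (by simp))
  have h1 := signVariations_lt_card m P hP hcard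
  have h2 := Polynomial.roots_countP_pos_le_signVariations (P := P)
  have h3 : m + 1 ≤ P.roots.countP (0 < ·) := by
    let S : Finset ℝ := Finset.univ.image (fun i => (s i : ℝ))
    have hS : S.card = m + 1 := by
      rw [Finset.card_image_of_injective _ (fun i j hij => hs (by exact_mod_cast hij))]
      simp
    have hle : S.val ≤ P.roots.filter (0 < ·) := by
      rw [Multiset.le_iff_subset S.nodup]
      intro x hx
      have hx' : x ∈ S := hx
      obtain ⟨i, _, rfl⟩ := Finset.mem_image.1 hx'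
      rw [Multiset.mem_filter]
      refine ⟨?_, by exact_mod_cast hs0 i⟩
      rw [Polynomial.mem_roots hP, Polynomial.IsRoot.def]
      simp only [P, Polynomial.eval_finsetSum, Polynomial.eval_monomial]
      rw [← h i]
      exact Finset.sum_congr rfl (fun j _ => mul_comm _ _)
    have := Multiset.card_le_card hle
    rw [Multiset.countP_eq_card_filter]
    calc m + 1 = S.card := hS.symm
      _ = Multiset.card S.val := rfl
      _ ≤ _ := this
  omega

/-- The same over every field of characteristic zero. -/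
lemma powers_independent {k : Type*} [Field k] [CharZero k] {m : ℕ} (c : Fin (m + 1) → ℕ)
    (hc : Function.Injective c) (s : Fin (m + 1) → ℕ) (hs : Function.Injective s)
    (hs0 : ∀ i, 0 < s i) : LinearIndependent k (fun i j => (s i : k) ^ c j) := by
  let A : Matrix (Fin (m + 1)) (Fin (m + 1)) ℤ := Matrix.of fun i j => (s i : ℤ) ^ c j
  have hA : A.det ≠ 0 := by
    intro h0
    have h1 : (A.map (Int.castRingHom ℝ)).det = 0 := by
      rw [← RingHom.mapMatrix_apply, ← RingHom.map_det, h0, map_zero]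
    obtain ⟨a, ha, ha'⟩ := Matrix.exists_mulVec_eq_zero_iff.2 h1
    apply ha
    apply real_powers c hc s hs hs0 a
    intro i
    have := congrFun ha' i
    simpa [A, Matrix.mulVec, dotProduct, Matrix.map_apply] using this
  have h2 : (A.map (Int.castRingHom k)).det ≠ 0 := by
    rw [← RingHom.mapMatrix_apply, ← RingHom.map_det]
    simpa using hA
  have h3 := Matrix.linearIndependent_rows_of_det_ne_zero h2
  have h4 : (fun i j => (s i : k) ^ c j) = (A.map (Int.castRingHom k)).row := by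
    ext i j
    simp [A, Matrix.row, Matrix.map_apply]
  rw [h4]
  exact h3

/-! ### The vanishing ideal -/

section Vanishing

variable {k : Type*} [Field k] {n : ℕ}

lemma mem_vanishingIdeal {Z : Set (PSpace k n)} {F : MvPolynomial (Fin (n + 1)) k} {e : ℕ}
    (hF : F.IsHomogeneous e) (h : ∀ P ∈ Z, eval P.rep F = 0) : F ∈ vanishingIdeal Z :=
  Ideal.subset_span ⟨⟨e, hF⟩, h⟩

lemma eval_smul_of_homogeneous {F : MvPolynomial (Fin (n + 1)) k} {e : ℕ}
    (hF : F.IsHomogeneous e) (a : k) (v : Fin (n + 1) → k) :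
    eval (a • v) F = a ^ e * eval v F := by
  rw [eval_eq, eval_eq, Finset.mul_sum]
  refine Finset.sum_congr rfl fun m hm => ?_
  have h1 : ∑ i, m i = e := by
    have := hF (mem_support_iff.1 hm)
    rw [Finsupp.weight_apply, Finsupp.sum_fintype _ _ (by simp)] at this
    simpa using this
  have h2 : ∏ i ∈ m.support, (a • v) i ^ m i = ∏ i, (a • v) i ^ m i :=
    Finset.prod_subset (Finset.subset_univ _) (fun i _ hi => by
      rw [Finsupp.notMem_support_iff.1 hi, pow_zero])
  have h3 : ∏ i ∈ m.support, v i ^ m i = ∏ i, v i ^ m i :=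
    Finset.prod_subset (Finset.subset_univ _) (fun i _ hi => by
      rw [Finsupp.notMem_support_iff.1 hi, pow_zero])
  rw [h2, h3]
  simp only [Pi.smul_apply, smul_eq_mul, mul_pow, Finset.prod_mul_distrib]
  rw [Finset.prod_pow_eq_pow_sum, h1]
  ring

lemma eval_smul_rep_eq_zero {Z : Set (PSpace k n)} {F : MvPolynomial (Fin (n + 1)) k}
    (hF : F ∈ vanishingIdeal Z) {P : PSpace k n} (hP : P ∈ Z) (a : k) :
    eval (a • P.rep) F = 0 := by
  have : vanishingIdeal Z ≤ RingHom.ker (eval (a • P.rep) : MvPolynomial (Fin (n + 1)) k →+* k) := by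
    rw [vanishingIdeal, Ideal.span_le]
    rintro G ⟨⟨e, hG⟩, h⟩
    rw [SetLike.mem_coe, RingHom.mem_ker, eval_smul_of_homogeneous hG, h P hP, mul_zero]
  exact this hF

end Vanishing

/-! ### The points -/

/-- The exponents `0, 1, 3, 9, 81, ...`. -/
def expo {N : ℕ} (j : Fin (N + 4)) : ℕ :=
  if j.val = 0 then 0 else if j.val = 1 then 1 else if j.val = 2 then 3 else 9 ^ (j.val - 2)

lemma expo_strictMono {N : ℕ} : StrictMono (expo : Fin (N + 4) → ℕ) := by
  intro i j hij
  have hij' : i.val < j.val := hij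
  unfold expo
  have h9 : ∀ m : ℕ, 1 ≤ m → 9 ≤ 9 ^ m := fun m hm => by
    calc 9 = 9 ^ 1 := by norm_num
      _ ≤ 9 ^ m := Nat.pow_le_pow_right (by norm_num) hm
  split_ifs <;> try omega
  · have := h9 (j.val - 2) (by omega)
    omega
  · have := h9 (j.val - 2) (by omega)
    omega
  · have := h9 (j.val - 2) (by omega)
    omega
  · exact Nat.pow_lt_pow_right (by norm_num) (by omega)

lemma expo_le {N : ℕ} (j : Fin (N + 4)) : expo j ≤ 9 ^ (N + 1) := by
  have h1 : expo j ≤ expo (Fin.last (N + 3)) := expo_strictMono.monotone (Fin.le_last j)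
  refine h1.trans (le_of_eq ?_)
  simp [expo]

section Points

variable (k : Type*) [Field k] [CharZero k] (N : ℕ)

/-- The vector `(1, t, t ^ 3, t ^ 9, t ^ 81, ...)`. -/
def vec (t : ℕ) : Fin (N + 3 + 1) → k := fun j => (t : k) ^ expo j

lemma vec_ne_zero (t : ℕ) : vec k N t ≠ 0 := by
  intro h
  have := congrFun h 0
  simp [vec, expo] at this

/-- The point with coordinates `(1, t, t ^ 3, t ^ 9, t ^ 81, ...)`. -/
noncomputable def pt (t : ℕ) : PSpace k (N + 3) := Projectivization.mk k (vec k N t) (vec_ne_zero k N t)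

/-- The set of points. -/
noncomputable def pts : Set (PSpace k (N + 3)) :=
  pt k N '' (Finset.Icc 1 (5 * 9 ^ (N + 1) + N + 5) : Finset ℕ)

lemma rep_pt (t : ℕ) : ∃ a : kˣ, a • vec k N t = (pt k N t).rep :=
  Projectivization.exists_smul_eq_mk_rep k _ (vec_ne_zero k N t)

lemma pts_finite : (pts k N).Finite :=
  (Finset.finite_toSet _).image _

lemma vec_independent {s : Fin (N + 3 + 1) → ℕ} (hs : Function.Injective s)
    (hs0 : ∀ i, 0 < s i) : LinearIndependent k (fun i => (pt k N (s i)).rep) := by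
  have h1 := powers_independent (k := k) (expo (N := N)) expo_strictMono.injective s hs hs0
  choose a ha using rep_pt k N
  have h2 := h1.units_smul (fun i => a (s i))
  have h3 : (fun i => (pt k N (s i)).rep) =
      ((fun i => a (s i)) • fun (i : Fin (N + 3 + 1)) (j : Fin (N + 4)) => (s i : k) ^ expo j) := by
    ext i j
    rw [← ha (s i)]
    rfl
  rw [h3]
  exact h2

lemma pts_lgp : LinearGeneralPosition (pts k N) := by
  intro f hf hfZ
  have h1 : ∀ i, ∃ t : ℕ, 1 ≤ t ∧ pt k N t = f i := by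
    intro i
    obtain ⟨t, ht, ht'⟩ := hfZ i
    exact ⟨t, (Finset.mem_Icc.1 ht).1, ht'⟩
  choose s hs1 hs2 using h1
  have hs : Function.Injective s := by
    intro i j hij
    apply hf
    rw [← hs2 i, ← hs2 j, hij]
  have := vec_independent k N hs hs1
  simpa only [hs2] using this

lemma pts_nondegenerate : NonDegenerate (pts k N) := by
  have h1 : LinearIndependent k (fun i : Fin (N + 3 + 1) => (pt k N (i.val + 1)).rep) :=
    vec_independent k N (s := fun i => i.val + 1) (fun i j hij => Fin.ext (by simpa using hij))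
      (fun i => Nat.succ_pos _)
  have h2 := h1.span_eq_top_of_card_eq_finrank (by simp)
  unfold NonDegenerate
  rw [eq_top_iff, ← h2]
  apply Submodule.span_mono
  rintro _ ⟨i, rfl⟩
  refine ⟨pt k N (i.val + 1), ⟨i.val + 1, ?_, rfl⟩, rfl⟩
  simp only [Finset.coe_Icc, Set.mem_Icc]
  have := i.isLt
  have h9 : 0 < 9 ^ (N + 1) := by positivity
  omega

end Points

/-! ### The forms of degree five vanishing at the points -/

section Bound

lemma digits_unique (K : ℕ) : ∀ a b : Fin K → ℕ, (∀ i, a i < 9) → (∀ i, b i < 9) →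
    ∑ i, 9 ^ i.val * a i = ∑ i, 9 ^ i.val * b i → a = b := by
  induction K with
  | zero => intro a b _ _ _; ext i; exact i.elim0
  | succ K ih =>
    intro a b ha hb h
    rw [Fin.sum_univ_succ, Fin.sum_univ_succ] at h
    have h1 : ∀ c : Fin (K + 1) → ℕ, ∑ i : Fin K, 9 ^ i.succ.val * c i.succ =
        9 * ∑ i : Fin K, 9 ^ i.val * c i.succ := by
      intro c
      rw [Finset.mul_sum]
      refine Finset.sum_congr rfl fun i _ => ?_
      rw [Fin.val_succ]
      ring
    rw [h1, h1] at h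
    simp only [Fin.val_zero, pow_zero, one_mul] at h
    have ha0 := ha 0
    have hb0 := hb 0
    have h2 : a 0 = b 0 := by omega
    have h3 := ih (fun i => a i.succ) (fun i => b i.succ) (fun i => ha _) (fun i => hb _)
      (by omega)
    ext i
    refine Fin.cases h2 (fun i => ?_) i
    exact congrFun h3 i

variable {N : ℕ}

/-- The exponent of the parameter in a monomial restricted to the curve. -/
def wt (m : Fin (N + 4) →₀ ℕ) : ℕ := ∑ j, expo j * m j

lemma wt_le {m : Fin (N + 4) →₀ ℕ} (hm : ∑ j, m j = 5) : wt m ≤ 5 * 9 ^ (N + 1) := by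
  unfold wt
  calc ∑ j, expo j * m j ≤ ∑ j, 9 ^ (N + 1) * m j :=
        Finset.sum_le_sum fun j _ => Nat.mul_le_mul_right _ (expo_le j)
    _ = 9 ^ (N + 1) * 5 := by rw [← Finset.mul_sum, hm]
    _ = _ := mul_comm _ _

lemma wt_eq (m : Fin (N + 4) →₀ ℕ) :
    wt m = ∑ i : Fin (N + 2), 9 ^ i.val *
      (Fin.cons (m 1 + 3 * m 2) (fun i : Fin (N + 1) => m i.succ.succ.succ) :
        Fin (N + 2) → ℕ) i := by
  unfold wt
  rw [Fin.sum_univ_succ, Fin.sum_univ_succ, Fin.sum_univ_succ, Fin.sum_univ_succ]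
  conv_rhs => rw [Fin.sum_univ_succ]
  conv_rhs => rw [Fin.sum_univ_succ]
  have h0 : expo (0 : Fin (N + 4)) = 0 := by simp [expo]
  have h1 : expo (Fin.succ 0 : Fin (N + 4)) = 1 := by simp [expo]
  have h2 : expo (Fin.succ (Fin.succ 0) : Fin (N + 4)) = 3 := by
    have : (Fin.succ (Fin.succ 0) : Fin (N + 4)).val = 2 := rfl
    rw [expo, this]
    simp
  have h3 : ∀ i : Fin (N + 1), expo (Fin.succ (Fin.succ (Fin.succ i)) : Fin (N + 4)) =
      9 ^ (i.val + 1) := by
    intro i
    simp [expo]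
  rw [h0, h1, h2, h3]
  simp only [h3]
  simp only [Fin.cons_zero, Fin.cons_succ, Fin.val_succ, Fin.val_zero]
  have e1 : (Fin.succ 0 : Fin (N + 4)) = 1 := rfl
  have e2 : (Fin.succ (Fin.succ 0) : Fin (N + 4)) = 2 := rfl
  rw [e1, e2]
  ring

/-- The exponents of degree five for which the exponent of `x₁` or of `x₂` exceeds two. -/
def bad (N : ℕ) : Finset (Fin (N + 4) →₀ ℕ) :=
  (Finset.finsuppAntidiag Finset.univ 5).filter (fun m => 3 ≤ m 1 ∨ 3 ≤ m 2)

lemma wt_injOn {m m' : Fin (N + 4) →₀ ℕ} (h5 : ∑ j, m j = 5) (h5' : ∑ j, m' j = 5)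
    (hm : ¬ (3 ≤ m 1 ∨ 3 ≤ m 2)) (hm' : ¬ (3 ≤ m' 1 ∨ 3 ≤ m' 2)) (h : wt m = wt m') :
    m = m' := by
  rw [wt_eq, wt_eq] at h
  push Not at hm hm'
  have hle : ∀ (m : Fin (N + 4) →₀ ℕ), ∑ j, m j = 5 → ∀ j, m j ≤ 5 := by
    intro m h5 j
    rw [← h5]
    exact Finset.single_le_sum (f := fun j => m j) (fun _ _ => Nat.zero_le _) (Finset.mem_univ j)
  have key : ∀ (m : Fin (N + 4) →₀ ℕ), ∑ j, m j = 5 → (m 1 < 3 ∧ m 2 < 3) → ∀ i : Fin (N + 2),
      (Fin.cons (m 1 + 3 * m 2) (fun i : Fin (N + 1) => m i.succ.succ.succ) :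
        Fin (N + 2) → ℕ) i < 9 := by
    intro m h5 hm i
    refine Fin.cases ?_ (fun i => ?_) i
    · simp only [Fin.cons_zero]
      omega
    · simp only [Fin.cons_succ]
      have := hle m h5 i.succ.succ.succ
      omega
  have h1 := digits_unique _ _ _ (key m h5 hm) (key m' h5' hm') h
  have h2 := congrFun h1 0
  simp only [Fin.cons_zero] at h2
  have h3 : ∀ i : Fin (N + 1), m i.succ.succ.succ = m' i.succ.succ.succ := by
    intro i
    have := congrFun h1 i.succ
    simpa only [Fin.cons_succ] using this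
  have h4 : m 1 = m' 1 := by omega
  have h6 : m 2 = m' 2 := by omega
  have h7 : m 0 = m' 0 := by
    rw [Fin.sum_univ_succ, Fin.sum_univ_succ, Fin.sum_univ_succ] at h5 h5'
    have e1 : (Fin.succ 0 : Fin (N + 4)) = 1 := rfl
    have e2 : (Fin.succ (Fin.succ 0) : Fin (N + 4)) = 2 := rfl
    rw [e1, e2] at h5 h5'
    have : ∑ i : Fin (N + 1), m i.succ.succ.succ = ∑ i : Fin (N + 1), m' i.succ.succ.succ :=
      Finset.sum_congr rfl fun i _ => h3 i
    omega
  ext j
  refine Fin.cases h7 (fun j => ?_) j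
  refine Fin.cases h4 (fun j => ?_) j
  refine Fin.cases h6 (fun j => ?_) j
  exact h3 j

lemma card_shift (i : Fin (N + 4)) :
    ((Finset.finsuppAntidiag (Finset.univ : Finset (Fin (N + 4))) 5).filter
      (fun m => 3 ≤ m i)).card ≤ (N + 5).choose 2 := by
  have h1 : (Finset.finsuppAntidiag (Finset.univ : Finset (Fin (N + 4))) 2).card =
      (N + 5).choose 2 := by
    rw [Finset.card_finsuppAntidiag_nat_eq_choose, Finset.card_univ, Fintype.card_fin]
    rfl
  rw [← h1]
  apply Finset.card_le_card_of_injOn (fun m => m - Finsupp.single i 3)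
  · intro m hm
    simp only [Finset.coe_filter, Finset.mem_finsuppAntidiag, Set.mem_ofPred_eq] at hm
    simp only [Finset.mem_coe, Finset.mem_finsuppAntidiag]
    refine ⟨?_, fun _ _ => Finset.mem_univ _⟩
    have h2 : ∀ j, m j = (m - Finsupp.single i 3 : Fin (N + 4) →₀ ℕ) j +
        (if j = i then 3 else 0) := by
      intro j
      by_cases hj : i = j
      · subst hj
        simp
        omega
      · simp [Ne.symm hj]
    have h3 : ∑ j, m j = ∑ j, (m - Finsupp.single i 3 : Fin (N + 4) →₀ ℕ) j + 3 := by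
      rw [Finset.sum_congr rfl fun j _ => h2 j]
      simp [Finset.sum_add_distrib]
    have h4 : ∑ j, m j = 5 := hm.1.1
    have h5 : ∑ j, (m - Finsupp.single i 3 : Fin (N + 4) →₀ ℕ) j = 2 := by omega
    exact h5
  · intro m hm m' hm' h
    simp only [Finset.coe_filter, Finset.mem_finsuppAntidiag, Set.mem_ofPred_eq] at hm hm'
    ext j
    have := DFunLike.congr_fun h j
    by_cases hj : i = j
    · subst hj
      simp at this
      omega
    · simpa [Finsupp.single_apply, hj] using this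

lemma card_bad : (bad N).card ≤ (N + 6).choose (N + 3) := by
  have h1 : (bad N).card ≤ (N + 5).choose 2 + (N + 5).choose 2 := by
    unfold bad
    rw [Finset.filter_or]
    exact (Finset.card_union_le _ _).trans (add_le_add (card_shift 1) (card_shift 2))
  refine h1.trans ?_
  have h2 : (N + 6).choose (N + 3) = (N + 6).choose 3 := by
    exact Nat.choose_symm_of_eq_add rfl
  have h3 : (N + 6).choose 3 = (N + 5).choose 2 + (N + 5).choose 3 := Nat.choose_succ_succ (N + 5) 2
  have h4 : (N + 5).choose 3 * 3 = (N + 5).choose 2 * (N + 5 - 2) :=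
    Nat.choose_succ_right_eq (N + 5) 2
  have h5 : (N + 5).choose 2 * 3 ≤ (N + 5).choose 2 * (N + 5 - 2) :=
    Nat.mul_le_mul_left _ (by omega)
  omega

end Bound

section Dimension

variable (k : Type*) [Field k] (N : ℕ)

/-- Restriction of a polynomial to the curve. -/
noncomputable def restr : MvPolynomial (Fin (N + 3 + 1)) k →ₐ[k] Polynomial k :=
  MvPolynomial.aeval (fun j : Fin (N + 4) => (Polynomial.X : Polynomial k) ^ expo j)

lemma eval_restr (F : MvPolynomial (Fin (N + 3 + 1)) k) (t : ℕ) :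
    (restr k N F).eval (t : k) = eval (vec k N t) F := by
  induction F using MvPolynomial.induction_on with
  | C a => simp [restr]
  | add p q hp hq => rw [map_add, Polynomial.eval_add, hp, hq, map_add]
  | mul_X p i hp => rw [map_mul, Polynomial.eval_mul, hp, map_mul]; simp [restr, vec]

lemma restr_monomial (m : Fin (N + 4) →₀ ℕ) (a : k) :
    restr k N (monomial m a) = Polynomial.monomial (wt m) a := by
  have h1 : restr k N (monomial m a) =
      Polynomial.C a * m.prod (fun j e => ((Polynomial.X : Polynomial k) ^ expo j) ^ e) := by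
    unfold restr
    rw [MvPolynomial.aeval_monomial]
    rfl
  rw [h1, Finsupp.prod_fintype _ _ (by simp), ← Polynomial.C_mul_X_pow_eq_monomial]
  congr 1
  rw [wt, ← Finset.prod_pow_eq_pow_sum]
  refine Finset.prod_congr rfl fun j _ => ?_
  rw [pow_mul]

lemma degree_sum {F : MvPolynomial (Fin (N + 3 + 1)) k} (hF : F.IsHomogeneous 5)
    {m : Fin (N + 4) →₀ ℕ} (hm : m ∈ F.support) : ∑ j, m j = 5 := by
  have := hF (mem_support_iff.1 hm)
  rw [Finsupp.weight_apply, Finsupp.sum_fintype _ _ (by simp)] at this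
  simpa using this

variable [CharZero k]

/-- A quintic form vanishing at all the points, without bad monomials, vanishes. -/
lemma eq_zero_of_bad {F : MvPolynomial (Fin (N + 3 + 1)) k} (hF : F.IsHomogeneous 5)
    (hI : F ∈ vanishingIdeal (pts k N)) (hb : ∀ m ∈ bad N, coeff m F = 0) : F = 0 := by
  classical
  have h0 : restr k N F = 0 := by
    have hdeg : (restr k N F).natDegree ≤ 5 * 9 ^ (N + 1) := by
      rw [← support_sum_monomial_coeff F, map_sum]
      apply Polynomial.natDegree_sum_le_of_forall_le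
      intro m hm
      rw [restr_monomial]
      exact (Polynomial.natDegree_monomial_le _).trans (wt_le (degree_sum k N hF hm))
    let S : Finset k := (Finset.Icc 1 (5 * 9 ^ (N + 1) + N + 5)).image (fun t : ℕ => (t : k))
    have hS : S.card = 5 * 9 ^ (N + 1) + N + 5 := by
      rw [Finset.card_image_of_injective _ Nat.cast_injective]
      simp
    apply Polynomial.eq_zero_of_natDegree_lt_card_of_eval_eq_zero' _ S
    · intro x hx
      obtain ⟨t, ht, rfl⟩ := Finset.mem_image.1 hx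
      rw [eval_restr]
      obtain ⟨a, ha⟩ := rep_pt k N t
      have h1 := eval_smul_rep_eq_zero hI (P := pt k N t) ⟨t, ht, rfl⟩ ((a⁻¹ : kˣ) : k)
      have h2 : vec k N t = ((a⁻¹ : kˣ) : k) • (pt k N t).rep := by
        rw [← ha]
        change _ = (a⁻¹ : kˣ) • a • vec k N t
        rw [inv_smul_smul]
      rw [h2]
      exact h1
    · rw [hS]
      omega
  by_contra hne
  obtain ⟨m, hm⟩ := MvPolynomial.ne_zero_iff.1 hne
  have hm' : m ∈ F.support := mem_support_iff.2 hm
  have h5 := degree_sum k N hF hm'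
  have hgood : ∀ m ∈ F.support, ¬ (3 ≤ m 1 ∨ 3 ≤ m 2) := by
    intro m hm hbad
    apply mem_support_iff.1 hm
    apply hb
    simp only [bad, Finset.mem_filter, Finset.mem_finsuppAntidiag]
    exact ⟨⟨degree_sum k N hF hm, Finset.subset_univ _⟩, hbad⟩
  have h1 : (restr k N F).coeff (wt m) = coeff m F := by
    conv_lhs => rw [← support_sum_monomial_coeff F, map_sum]
    simp only [restr_monomial, Polynomial.finsetSum_coeff, Polynomial.coeff_monomial]
    rw [Finset.sum_eq_single m]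
    · simp
    · intro m' hm'' hne'
      rw [if_neg]
      intro h
      exact hne' (wt_injOn (degree_sum k N hF hm'') h5 (hgood m' hm'') (hgood m hm') h)
    · intro h
      exact absurd hm' h
  rw [h0, Polynomial.coeff_zero] at h1
  exact hm h1.symm

/-- The bad coefficients of a form. -/
noncomputable def badCoeff :
    degreePart (vanishingIdeal (pts k N)) 5 →ₗ[k] (bad N → k) where
  toFun F := fun m => coeff m.1 F.1
  map_add' F G := by
    ext m
    simp
  map_smul' a F := by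
    ext m
    simp

lemma badCoeff_injective : Function.Injective (badCoeff k N) := by
  rw [injective_iff_map_eq_zero]
  rintro ⟨F, hF⟩ h
  have h1 : F = 0 := by
    apply eq_zero_of_bad k N hF.1 hF.2
    intro m hm
    exact congrFun h ⟨m, hm⟩
  exact Subtype.ext h1

lemma finite_degreePart : Module.Finite k (degreePart (vanishingIdeal (pts k N)) 5) :=
  Module.Finite.of_injective (badCoeff k N) (badCoeff_injective k N)

lemma finrank_degreePart_le :
    Module.finrank k (degreePart (vanishingIdeal (pts k N)) 5) ≤ (N + 6).choose (N + 3) := by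
  refine (LinearMap.finrank_le_finrank_of_injective (badCoeff_injective k N)).trans ?_
  rw [Module.finrank_fintype_fun_eq_card, Fintype.card_coe]
  exact card_bad

end Dimension

/-! ### The unexpected form -/

section Identity

variable {R : Type*} [CommRing R]

/-- The quintic `G`, as a function of the values `f`, `c`, `b`, `a` of the Taylor coefficients at the
point of the two cubics. -/
def quintic (f1 f2 c1 c2 b1 b2 a1 a2 : R) : R :=
  f1 * (a1 * b2 ^ 2 - a1 * a2 * c2 - a2 * b1 * b2 + a2 ^ 2 * c1) +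
    f2 * (a1 ^ 2 * c2 - a1 * b1 * b2 + a2 * b1 ^ 2 - a1 * a2 * c1)

/-- The quartic `S`. -/
def quartic (f1 f2 c1 c2 b1 b2 a1 a2 : R) : R :=
  c1 * (a1 * b2 ^ 2 - a1 * a2 * c2 - a2 * b1 * b2 + a2 ^ 2 * c1) +
    c2 * (a1 ^ 2 * c2 - a1 * b1 * b2 + a2 * b1 ^ 2 - a1 * a2 * c1) +
    f1 * (a1 * a2 * b2 - a2 ^ 2 * b1) + f2 * (a1 * a2 * b1 - a1 ^ 2 * b2)

lemma quintic_shift (f1 f2 c1 c2 b1 b2 a1 a2 μ : R) :
    quintic (f1 + c1 * μ + b1 * μ ^ 2 + a1 * μ ^ 3) (f2 + c2 * μ + b2 * μ ^ 2 + a2 * μ ^ 3)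
      (c1 + 2 * b1 * μ + 3 * a1 * μ ^ 2) (c2 + 2 * b2 * μ + 3 * a2 * μ ^ 2)
      (b1 + 3 * a1 * μ) (b2 + 3 * a2 * μ) a1 a2 =
    quintic f1 f2 c1 c2 b1 b2 a1 a2 + μ * quartic f1 f2 c1 c2 b1 b2 a1 a2 := by
  unfold quintic quartic
  ring

end Identity

section Cubics

variable {R : Type*} [CommRing R]

/-- The cubic `x₁ ^ 3 - x₀ ^ 2 x₂`. -/
def cubF (x0 x1 x2 : R) : R := x1 ^ 3 - x0 ^ 2 * x2

/-- The linear Taylor coefficient of the cubic. -/
def cubC (x0 x1 x2 p0 p1 p2 : R) : R := 3 * x1 ^ 2 * p1 - (2 * x0 * p0 * x2 + x0 ^ 2 * p2)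

/-- The quadratic Taylor coefficient of the cubic. -/
def cubB (x0 x1 x2 p0 p1 p2 : R) : R := 3 * x1 * p1 ^ 2 - (p0 ^ 2 * x2 + 2 * x0 * p0 * p2)

lemma cubF_shift (y0 y1 y2 p0 p1 p2 μ : R) :
    cubF (y0 + μ * p0) (y1 + μ * p1) (y2 + μ * p2) =
      cubF y0 y1 y2 + cubC y0 y1 y2 p0 p1 p2 * μ + cubB y0 y1 y2 p0 p1 p2 * μ ^ 2 +
        cubF p0 p1 p2 * μ ^ 3 := by
  unfold cubF cubC cubB
  ring

lemma cubC_shift (y0 y1 y2 p0 p1 p2 μ : R) :
    cubC (y0 + μ * p0) (y1 + μ * p1) (y2 + μ * p2) p0 p1 p2 =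
      cubC y0 y1 y2 p0 p1 p2 + 2 * cubB y0 y1 y2 p0 p1 p2 * μ + 3 * cubF p0 p1 p2 * μ ^ 2 := by
  unfold cubF cubC cubB
  ring

lemma cubB_shift (y0 y1 y2 p0 p1 p2 μ : R) :
    cubB (y0 + μ * p0) (y1 + μ * p1) (y2 + μ * p2) p0 p1 p2 =
      cubB y0 y1 y2 p0 p1 p2 + 3 * cubF p0 p1 p2 * μ := by
  unfold cubF cubB
  ring

/-- The unexpected quintic. -/
def bigG (x0 x1 x2 x3 p0 p1 p2 p3 : R) : R :=
  quintic (cubF x0 x1 x2) (cubF x0 x2 x3) (cubC x0 x1 x2 p0 p1 p2) (cubC x0 x2 x3 p0 p2 p3)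
    (cubB x0 x1 x2 p0 p1 p2) (cubB x0 x2 x3 p0 p2 p3) (cubF p0 p1 p2) (cubF p0 p2 p3)

/-- The quartic of the Taylor expansion of the unexpected quintic. -/
def bigS (x0 x1 x2 x3 p0 p1 p2 p3 : R) : R :=
  quartic (cubF x0 x1 x2) (cubF x0 x2 x3) (cubC x0 x1 x2 p0 p1 p2) (cubC x0 x2 x3 p0 p2 p3)
    (cubB x0 x1 x2 p0 p1 p2) (cubB x0 x2 x3 p0 p2 p3) (cubF p0 p1 p2) (cubF p0 p2 p3)

lemma bigG_shift (y0 y1 y2 y3 p0 p1 p2 p3 μ : R) :
    bigG (y0 + μ * p0) (y1 + μ * p1) (y2 + μ * p2) (y3 + μ * p3) p0 p1 p2 p3 =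
      bigG y0 y1 y2 y3 p0 p1 p2 p3 + μ * bigS y0 y1 y2 y3 p0 p1 p2 p3 := by
  unfold bigG bigS
  rw [cubF_shift, cubF_shift, cubC_shift, cubC_shift, cubB_shift, cubB_shift, quintic_shift]

lemma map_bigG {S : Type*} [CommRing S] (φ : R →+* S) (x0 x1 x2 x3 p0 p1 p2 p3 : R) :
    φ (bigG x0 x1 x2 x3 p0 p1 p2 p3) =
      bigG (φ x0) (φ x1) (φ x2) (φ x3) (φ p0) (φ p1) (φ p2) (φ p3) := by
  simp only [bigG, quintic, cubF, cubC, cubB, map_add, map_sub, map_mul, map_pow, map_ofNat]

lemma quadratic_mem {I : Ideal R} {c1 c2 b1 b2 a1 a2 : R} (hc1 : c1 ∈ I ^ 2) (hc2 : c2 ∈ I ^ 2)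
    (hb1 : b1 ∈ I) (hb2 : b2 ∈ I) :
    a1 * b2 ^ 2 - a1 * a2 * c2 - a2 * b1 * b2 + a2 ^ 2 * c1 ∈ I ^ 2 := by
  have h1 : b2 ^ 2 ∈ I ^ 2 := Ideal.pow_mem_pow hb2 2
  have h2 : b1 * b2 ∈ I ^ 2 := by
    rw [pow_two]
    exact Ideal.mul_mem_mul hb1 hb2
  refine add_mem (sub_mem (sub_mem (Ideal.mul_mem_left _ _ h1) (Ideal.mul_mem_left _ _ hc2)) ?_)
    (Ideal.mul_mem_left _ _ hc1)
  rw [mul_assoc]
  exact Ideal.mul_mem_left _ _ h2

lemma quintic_mem {I : Ideal R} {f1 f2 c1 c2 b1 b2 a1 a2 : R} (hf1 : f1 ∈ I ^ 3)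
    (hf2 : f2 ∈ I ^ 3) (hc1 : c1 ∈ I ^ 2) (hc2 : c2 ∈ I ^ 2) (hb1 : b1 ∈ I) (hb2 : b2 ∈ I) :
    quintic f1 f2 c1 c2 b1 b2 a1 a2 ∈ I ^ 4 := by
  have hle : I ^ 3 * I ^ 2 ≤ I ^ 4 := by
    rw [← pow_add]
    exact Ideal.pow_le_pow_right (by norm_num)
  have h1 := quadratic_mem (a1 := a1) (a2 := a2) hc1 hc2 hb1 hb2
  have h2 := quadratic_mem (a1 := a2) (a2 := a1) hc2 hc1 hb2 hb1
  refine add_mem (hle (Ideal.mul_mem_mul hf1 h1)) (hle (Ideal.mul_mem_mul hf2 ?_))
  convert h2 using 1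
  ring

lemma quartic_mem {I : Ideal R} {f1 f2 c1 c2 b1 b2 a1 a2 : R} (hf1 : f1 ∈ I ^ 3)
    (hf2 : f2 ∈ I ^ 3) (hc1 : c1 ∈ I ^ 2) (hc2 : c2 ∈ I ^ 2) (hb1 : b1 ∈ I) (hb2 : b2 ∈ I) :
    quartic f1 f2 c1 c2 b1 b2 a1 a2 ∈ I ^ 4 := by
  have hle : I ^ 3 * I ^ 1 ≤ I ^ 4 := by
    rw [← pow_add]
  have hle' : I ^ 2 * I ^ 2 ≤ I ^ 4 := by
    rw [← pow_add]
  have h1 := quadratic_mem (a1 := a1) (a2 := a2) hc1 hc2 hb1 hb2
  have h2 := quadratic_mem (a1 := a2) (a2 := a1) hc2 hc1 hb2 hb1
  have h3 : a1 * a2 * b2 - a2 ^ 2 * b1 ∈ I ^ 1 := by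
    rw [pow_one]
    exact sub_mem (Ideal.mul_mem_left _ _ hb2) (Ideal.mul_mem_left _ _ hb1)
  have h4 : a1 * a2 * b1 - a1 ^ 2 * b2 ∈ I ^ 1 := by
    rw [pow_one]
    exact sub_mem (Ideal.mul_mem_left _ _ hb1) (Ideal.mul_mem_left _ _ hb2)
  refine add_mem (add_mem (add_mem (hle' (Ideal.mul_mem_mul hc1 h1))
    (hle' (Ideal.mul_mem_mul hc2 ?_))) (hle (Ideal.mul_mem_mul hf1 h3)))
    (hle (Ideal.mul_mem_mul hf2 h4))
  convert h2 using 1
  ring

lemma cub_mem {I : Ideal R} {y1 y2 p0 p1 p2 : R} (h1 : y1 ∈ I) (h2 : y2 ∈ I) :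
    cubF 0 y1 y2 ∈ I ^ 3 ∧ cubC 0 y1 y2 p0 p1 p2 ∈ I ^ 2 ∧ cubB 0 y1 y2 p0 p1 p2 ∈ I := by
  refine ⟨?_, ?_, ?_⟩
  · have : cubF 0 y1 y2 = y1 ^ 3 := by unfold cubF; ring
    rw [this]
    exact Ideal.pow_mem_pow h1 3
  · have : cubC 0 y1 y2 p0 p1 p2 = 3 * p1 * y1 ^ 2 := by unfold cubC; ring
    rw [this]
    exact Ideal.mul_mem_left _ _ (Ideal.pow_mem_pow h1 2)
  · have : cubB 0 y1 y2 p0 p1 p2 = 3 * p1 ^ 2 * y1 - p0 ^ 2 * y2 := by unfold cubB; ring
    rw [this]
    exact sub_mem (Ideal.mul_mem_left _ _ h1) (Ideal.mul_mem_left _ _ h2)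

lemma bigG_mem {I : Ideal R} {y1 y2 y3 p0 p1 p2 p3 : R} (h1 : y1 ∈ I) (h2 : y2 ∈ I)
    (h3 : y3 ∈ I) : bigG 0 y1 y2 y3 p0 p1 p2 p3 ∈ I ^ 4 ∧ bigS 0 y1 y2 y3 p0 p1 p2 p3 ∈ I ^ 4 := by
  obtain ⟨hf1, hc1, hb1⟩ := cub_mem (p0 := p0) (p1 := p1) (p2 := p2) h1 h2
  obtain ⟨hf2, hc2, hb2⟩ := cub_mem (p0 := p0) (p1 := p2) (p2 := p3) h2 h3
  exact ⟨quintic_mem hf1 hf2 hc1 hc2 hb1 hb2, quartic_mem hf1 hf2 hc1 hc2 hb1 hb2⟩

end Cubics

section Homogeneity

variable {k : Type*} [Field k] {σ : Type*}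

lemma hom_C (a : k) : (C a : MvPolynomial σ k).IsHomogeneous 0 := isHomogeneous_C _ _

lemma hom_ofNat (a : ℕ) [a.AtLeastTwo] :
    (OfNat.ofNat a : MvPolynomial σ k).IsHomogeneous 0 := by
  have : (OfNat.ofNat a : MvPolynomial σ k) = C (OfNat.ofNat a) := (map_ofNat C a).symm
  rw [this]
  exact isHomogeneous_C _ _

lemma quintic_hom {f1 f2 c1 c2 b1 b2 a1 a2 : MvPolynomial σ k} (hf1 : f1.IsHomogeneous 3)
    (hf2 : f2.IsHomogeneous 3) (hc1 : c1.IsHomogeneous 2) (hc2 : c2.IsHomogeneous 2)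
    (hb1 : b1.IsHomogeneous 1) (hb2 : b2.IsHomogeneous 1) (ha1 : a1.IsHomogeneous 0)
    (ha2 : a2.IsHomogeneous 0) : (quintic f1 f2 c1 c2 b1 b2 a1 a2).IsHomogeneous 5 := by
  have hb1' : (b1 ^ 2).IsHomogeneous 2 := hb1.pow 2
  have hb2' : (b2 ^ 2).IsHomogeneous 2 := hb2.pow 2
  have ha1' : (a1 ^ 2).IsHomogeneous 0 := ha1.pow 2
  have ha2' : (a2 ^ 2).IsHomogeneous 0 := ha2.pow 2
  refine IsHomogeneous.add ?_ ?_
  · refine hf1.mul (n := 2) ?_
    refine IsHomogeneous.add (IsHomogeneous.sub (IsHomogeneous.sub ?_ ?_) ?_) ?_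
    · exact ha1.mul hb2'
    · exact (ha1.mul ha2).mul hc2
    · exact (ha2.mul hb1).mul hb2
    · exact ha2'.mul hc1
  · refine hf2.mul (n := 2) ?_
    refine IsHomogeneous.sub (IsHomogeneous.add (IsHomogeneous.sub ?_ ?_) ?_) ?_
    · exact ha1'.mul hc2
    · exact (ha1.mul hb1).mul hb2
    · exact ha2.mul hb1'
    · exact (ha1.mul ha2).mul hc1

lemma cub_hom {x0 x1 x2 p0 p1 p2 : MvPolynomial σ k} (h0 : x0.IsHomogeneous 1)
    (h1 : x1.IsHomogeneous 1) (h2 : x2.IsHomogeneous 1) (hp0 : p0.IsHomogeneous 0)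
    (hp1 : p1.IsHomogeneous 0) (hp2 : p2.IsHomogeneous 0) :
    (cubF x0 x1 x2).IsHomogeneous 3 ∧ (cubC x0 x1 x2 p0 p1 p2).IsHomogeneous 2 ∧
      (cubB x0 x1 x2 p0 p1 p2).IsHomogeneous 1 ∧ (cubF p0 p1 p2).IsHomogeneous 0 := by
  refine ⟨?_, ?_, ?_, ?_⟩
  · exact IsHomogeneous.sub (h1.pow 3) ((h0.pow 2).mul h2)
  · exact IsHomogeneous.sub (((hom_ofNat 3).mul (h1.pow 2)).mul hp1)
      (IsHomogeneous.add ((((hom_ofNat 2).mul h0).mul hp0).mul h2) ((h0.pow 2).mul hp2))
  · exact IsHomogeneous.sub (((hom_ofNat 3).mul h1).mul (hp1.pow 2))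
      (IsHomogeneous.add ((hp0.pow 2).mul h2) ((((hom_ofNat 2).mul h0).mul hp0).mul hp2))
  · exact IsHomogeneous.sub (hp1.pow 3) ((hp0.pow 2).mul hp2)

lemma bigG_hom {x0 x1 x2 x3 p0 p1 p2 p3 : MvPolynomial σ k} (h0 : x0.IsHomogeneous 1)
    (h1 : x1.IsHomogeneous 1) (h2 : x2.IsHomogeneous 1) (h3 : x3.IsHomogeneous 1)
    (hp0 : p0.IsHomogeneous 0) (hp1 : p1.IsHomogeneous 0) (hp2 : p2.IsHomogeneous 0)
    (hp3 : p3.IsHomogeneous 0) : (bigG x0 x1 x2 x3 p0 p1 p2 p3).IsHomogeneous 5 := by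
  obtain ⟨hf1, hc1, hb1, ha1⟩ := cub_hom h0 h1 h2 hp0 hp1 hp2
  obtain ⟨hf2, hc2, hb2, ha2⟩ := cub_hom h0 h2 h3 hp0 hp2 hp3
  exact quintic_hom hf1 hf2 hc1 hc2 hb1 hb2 ha1 ha2

end Homogeneity

section Main

variable {k : Type*} [Field k] {N : ℕ}

/-- The unexpected quintic form of the point with coordinate vector `p`. -/
noncomputable def theForm (p : Fin (N + 3 + 1) → k) : MvPolynomial (Fin (N + 3 + 1)) k :=
  bigG (X 0) (X 1) (X 2) (X 3) (C (p 0)) (C (p 1)) (C (p 2)) (C (p 3))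

lemma theForm_hom (p : Fin (N + 3 + 1) → k) : (theForm p).IsHomogeneous 5 :=
  bigG_hom (isHomogeneous_X _ _) (isHomogeneous_X _ _) (isHomogeneous_X _ _)
    (isHomogeneous_X _ _) (hom_C _) (hom_C _) (hom_C _) (hom_C _)

lemma eval_theForm (p v : Fin (N + 3 + 1) → k) :
    eval v (theForm p) = bigG (v 0) (v 1) (v 2) (v 3) (p 0) (p 1) (p 2) (p 3) := by
  rw [theForm, map_bigG]
  simp

lemma theForm_ne_zero [CharZero k] {p : Fin (N + 3 + 1) → k} (h0 : p 0 ≠ 0)
    (h1 : p 1 ^ 3 - p 0 ^ 2 * p 2 ≠ 0) : theForm p ≠ 0 := by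
  intro h
  have key : ∀ s : k, bigG 0 1 0 s (p 0) (p 1) (p 2) (p 3) = 0 := by
    intro s
    let v : Fin (N + 3 + 1) → k := fun j => if j = 1 then 1 else if j = 3 then s else 0
    have h01 : (0 : Fin (N + 3 + 1)) ≠ 1 := fun h => absurd (congrArg Fin.val h) (by simp)
    have h03 : (0 : Fin (N + 3 + 1)) ≠ 3 := fun h => absurd (congrArg Fin.val h) (by
      change ¬ (0 = 3); omega)
    have h21 : (2 : Fin (N + 3 + 1)) ≠ 1 := fun h => absurd (congrArg Fin.val h) (by
      change ¬ (2 = 1); omega)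
    have h23 : (2 : Fin (N + 3 + 1)) ≠ 3 := fun h => absurd (congrArg Fin.val h) (by
      change ¬ (2 = 3); omega)
    have h31 : (3 : Fin (N + 3 + 1)) ≠ 1 := fun h => absurd (congrArg Fin.val h) (by
      change ¬ (3 = 1); omega)
    have h2 := eval_theForm p v
    rw [h, map_zero] at h2
    have e0 : v 0 = 0 := by simp only [v, if_neg h01, if_neg h03]
    have e1 : v 1 = 1 := by simp only [v, if_true]
    have e2 : v 2 = 0 := by simp only [v, if_neg h21, if_neg h23]
    have e3 : v 3 = s := by simp only [v, if_neg h31, if_true]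
    rw [e0, e1, e2, e3] at h2
    exact h2.symm
  have k0 := key 0
  have k1 := key 1
  have k2 := key (-1)
  have : (p 1 ^ 3 - p 0 ^ 2 * p 2) * (p 0 ^ 4 * 2) = 0 := by
    unfold bigG quintic cubF cubC cubB at k0 k1 k2
    linear_combination k1 + k2 - 2 * k0
  have h2 : p 0 ^ 4 * 2 ≠ 0 := mul_ne_zero (pow_ne_zero _ h0) two_ne_zero
  exact (mul_ne_zero h1 h2) this

lemma theForm_mem_pts [CharZero k] (p : Fin (N + 3 + 1) → k) :
    theForm p ∈ vanishingIdeal (pts k N) := by
  refine mem_vanishingIdeal (theForm_hom p) ?_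
  rintro _ ⟨t, -, rfl⟩
  obtain ⟨a, ha⟩ := rep_pt k N t
  rw [← ha]
  change eval ((a : k) • vec k N t) (theForm p) = 0
  rw [eval_smul_of_homogeneous (theForm_hom p), eval_theForm]
  have e0 : vec k N t 0 = 1 := by simp [vec, expo]
  have e1 : vec k N t 1 = t := by simp [vec, expo]
  have e2 : vec k N t 2 = (t : k) ^ 3 := by
    have : (2 : Fin (N + 3 + 1)).val = 2 := rfl
    rw [vec, expo, this]
    simp
  have e3 : vec k N t 3 = (t : k) ^ 9 := by
    have : (3 : Fin (N + 3 + 1)).val = 3 := rfl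
    rw [vec, expo, this]
    simp
  have h1 : cubF (vec k N t 0) (vec k N t 1) (vec k N t 2) = 0 := by
    rw [e0, e1, e2, cubF]
    ring
  have h2 : cubF (vec k N t 0) (vec k N t 2) (vec k N t 3) = 0 := by
    rw [e0, e2, e3, cubF]
    ring
  rw [bigG, h1, h2, quintic]
  ring

lemma theForm_mem_pow (P : PSpace k (N + 3)) (h0 : P.rep 0 ≠ 0) :
    theForm P.rep ∈ vanishingIdeal {P} ^ 4 := by
  set p := P.rep with hp
  let μ : MvPolynomial (Fin (N + 3 + 1)) k := C (p 0)⁻¹ * X 0
  let y : Fin (N + 3 + 1) → MvPolynomial (Fin (N + 3 + 1)) k := fun j => X j - μ * C (p j)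
  have hy : ∀ j, y j ∈ vanishingIdeal {P} := by
    intro j
    have hh : (y j).IsHomogeneous 1 :=
      IsHomogeneous.sub (isHomogeneous_X _ _)
        (((hom_C _).mul (isHomogeneous_X _ _)).mul (hom_C _))
    refine mem_vanishingIdeal hh ?_
    intro Q hQ
    rw [Set.mem_singleton_iff] at hQ
    rw [hQ, ← hp]
    simp only [y, μ, map_sub, map_mul, eval_X, eval_C]
    field_simp
    ring
  have hX : ∀ j, (X j : MvPolynomial (Fin (N + 3 + 1)) k) = y j + μ * C (p j) := by
    intro j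
    simp only [y]
    ring
  have hX0 : (X 0 : MvPolynomial (Fin (N + 3 + 1)) k) = 0 + μ * C (p 0) := by
    have : (C (p 0)⁻¹ : MvPolynomial (Fin (N + 3 + 1)) k) * C (p 0) = 1 := by
      rw [← C_mul, inv_mul_cancel₀ h0, C_1]
    simp only [μ]
    linear_combination (-(X 0 : MvPolynomial (Fin (N + 3 + 1)) k)) * this
  have h := bigG_mem (p0 := C (p 0)) (p1 := C (p 1)) (p2 := C (p 2)) (p3 := C (p 3))
    (hy 1) (hy 2) (hy 3)
  have h2 : theForm p = bigG (0 + μ * C (p 0)) (y 1 + μ * C (p 1)) (y 2 + μ * C (p 2))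
      (y 3 + μ * C (p 3)) (C (p 0)) (C (p 1)) (C (p 2)) (C (p 3)) := by
    rw [theForm, ← hX0, ← hX 1, ← hX 2, ← hX 3]
  rw [h2, bigG_shift]
  exact add_mem h.1 (Ideal.mul_mem_left _ _ h.2)

/-- The quartic form which does not vanish at the general point. -/
noncomputable def genForm (k : Type*) [Field k] (N : ℕ) : MvPolynomial (Fin (N + 3 + 1)) k :=
  X 0 * cubF (X 0) (X 1) (X 2)

lemma pts_unexpected [CharZero k] : Unexpected (pts k N) 5 4 := by
  refine ⟨4, genForm k N, ?_, ?_, ?_⟩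
  · exact (isHomogeneous_X _ _).mul (cub_hom (p0 := C 0) (p1 := C 0) (p2 := C 0)
      (isHomogeneous_X _ _) (isHomogeneous_X _ _)
      (isHomogeneous_X _ _) (hom_C _) (hom_C _) (hom_C _)).1
  · intro h
    have h1 := congrArg (eval (fun j : Fin (N + 3 + 1) => if j = 2 then (0 : k) else 1)) h
    have h02 : (0 : Fin (N + 3 + 1)) ≠ 2 := fun h => absurd (congrArg Fin.val h) (by
      change ¬ (0 = 2); omega)
    have h12 : (1 : Fin (N + 3 + 1)) ≠ 2 := fun h => absurd (congrArg Fin.val h) (by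
      change ¬ (1 = 2); omega)
    simp [genForm, cubF, h02, h12] at h1
  · intro P hP
    have hP' : P.rep 0 * (P.rep 1 ^ 3 - P.rep 0 ^ 2 * P.rep 2) ≠ 0 := by
      simpa [genForm, cubF] using hP
    have h0 := left_ne_zero_of_mul hP'
    have h1 := right_ne_zero_of_mul hP'
    have h2 : ((Module.finrank k (degreePart (vanishingIdeal (pts k N)) 5) : ℤ) -
          ((4 + (N + 3) - 1).choose (N + 3) : ℕ)) ≤ 0 := by
      have := finrank_degreePart_le k N
      have h3 : 4 + (N + 3) - 1 = N + 6 := by omega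
      rw [h3]
      omega
    rw [max_eq_left h2]
    have hle : degreePart (vanishingIdeal (pts k N) ⊓ vanishingIdeal {P} ^ 4) 5 ≤
        degreePart (vanishingIdeal (pts k N)) 5 := by
      intro F hF
      exact ⟨hF.1, hF.2.1⟩
    have := finite_degreePart k N
    have hfin : Module.Finite k
        (degreePart (vanishingIdeal (pts k N) ⊓ vanishingIdeal {P} ^ 4) 5) :=
      Module.Finite.of_injective (Submodule.inclusion hle) (Submodule.inclusion_injective hle)
    have hmem : theForm P.rep ∈ degreePart (vanishingIdeal (pts k N) ⊓ vanishingIdeal {P} ^ 4) 5 :=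
      ⟨theForm_hom _, theForm_mem_pts _, theForm_mem_pow P h0⟩
    have hnt : Nontrivial (degreePart (vanishingIdeal (pts k N) ⊓ vanishingIdeal {P} ^ 4) 5) :=
      ⟨⟨_, hmem⟩, 0, fun h => theForm_ne_zero h0 h1 (congrArg Subtype.val h)⟩
    exact_mod_cast Module.finrank_pos

end Main

/-- In every projective space of dimension `n ≥ 3` over a field of characteristic zero there is a
finite non-degenerate set of points in linear general position which admits an unexpected
hypersurface of degree `5` with multiplicity `4` at a general point. -/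
theorem result {k : Type*} [Field k] [CharZero k] (n : ℕ) (hn : 3 ≤ n) :
    ∃ Z : Set (PSpace k n), Z.Finite ∧ NonDegenerate Z ∧ LinearGeneralPosition Z ∧
      Unexpected Z 5 4 := by
  obtain ⟨N, rfl⟩ := Nat.exists_eq_add_of_le' hn
  exact ⟨pts k N, pts_finite k N, pts_nondegenerate k N, pts_lgp k N, pts_unexpected⟩

end Pool.Agent.Results.MP_b2f0ea_ag.QuinticEveryDimension
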